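import Pool.Agent.H62.BalMain

set_option autoImplicit false
open Pool.Agent.H62.Bal

namespace Pool.Agent.Results.MP_34945e_gt.BoProd

/-- every boundedly oscillating function is bounded outside a bounded set -/
def BoBounded {X : Type*} (𝓔 : Set (Set (X × X))) : Prop :=
  ∀ f : X → ℝ, (∃ C, ∀ E ∈ 𝓔, Osc 𝓔 f E C) → BddOff 𝓔 f

theorem result {X Y : Type*} [Nonempty X] [Nonempty Y] (𝓔 : Set (Set (X × X))) (𝓕 : Set (Set (Y × Y)))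
    (hE : IsBallean 𝓔) (hF : IsBallean 𝓕) (hX : BoBounded 𝓔) (hY : BoBounded 𝓕) :
    BoBounded {D | ∃ E ∈ 𝓔, ∃ F ∈ 𝓕, D = tens E F} := fun f ⟨C, hf⟩ =>
  main hE.weak hF.weak (P := {D | ∃ E ∈ 𝓔, ∃ F ∈ 𝓕, D = tens E F})
    (fun E h F h' => ⟨E, h, F, h', rfl⟩) (fun _ ⟨E, h, F, h', e⟩ => ⟨E, h, F, h', e.subset⟩) f
    (fun D h => ⟨C, hf D h⟩)
    (fun g h => hX g ⟨C, fun E h1 => let ⟨D, a, b⟩ := h E h1; b C (hf D a)⟩)
    (fun g h => hY g ⟨C, fun E h1 => let ⟨D, a, b⟩ := h E h1; b C (hf D a)⟩)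

end Pool.Agent.Results.MP_34945e_gt.BoProd
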